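import Pool.Agent.H500R3.UB.Geo

/-! Two-dimensional `U`-bootstrap percolation: the mean occupation time at criticality. -/

set_option autoImplicit false

namespace Pool.Agent.Results.MP_28b826_pr.InfiniteMeanAtCriticality
open MeasureTheory ProbabilityTheory Set
open scoped ENNReal
open Pool.Agent.H500R3 Pool.Agent.H500R3.UB

/-- Subcritical families: the stable set meets every open semicircle in positive arc length. -/
def Subcritical (U : Finset (Finset Site)) : Prop :=
  ∀ a : ℝ, 0 < volume {θ : ℝ | θ ∈ Ioo a (a + Real.pi) ∧ (Real.cos θ, Real.sin θ) ∈ stableSet U}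

theorem Subcritical.nonempty {U : Finset (Finset Site)} (h : Subcritical U) :
    (stableSet U).Nonempty := by
  have h1 := h 0
  obtain ⟨θ, -, hθ⟩ := nonempty_of_measure_ne_zero h1.ne'
  exact ⟨_, hθ⟩

theorem measurable_T (U : Finset (Finset Site)) : Measurable (T U) := by
  classical
  obtain ⟨r, -, hr⟩ := exists_range U
  have hmeas : ∀ t : ℕ, MeasurableSet {ω : Site → Bool | (0 : Site) ∈ At U (init ω) t} := by
    intro t
    have hdep : Prod.Dep (box 0 (r * t) : Set Site) {ω : Site → Bool | (0 : Site) ∈ At U (init ω) t} := by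
      intro ω ω' hω
      have h1 : init ω ∩ box 0 (r * t) = init ω' ∩ box 0 (r * t) := by
        ext y
        constructor
        · rintro ⟨h2, h3⟩
          refine ⟨?_, h3⟩
          have h4 : ω y = true := h2
          show ω' y = true
          rw [← hω y h3, h4]
        · rintro ⟨h2, h3⟩
          refine ⟨?_, h3⟩
          have h4 : ω' y = true := h2
          show ω y = true
          rw [hω y h3, h4]
      have h5 : ∀ η : Site → Bool, η ∈ {ω : Site → Bool | (0 : Site) ∈ At U (init ω) t} ↔
          (0 : Site) ∈ At U (init η ∩ box 0 (r * t)) t := by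
        intro η
        constructor
        · intro h6
          exact At_local hr _ t 0 h6
        · intro h6
          exact At_mono inter_subset_left t h6
      rw [h5, h5, h1]
    exact hdep.measurableSet
  have heq : T U = fun ω => ⨅ t : ℕ, if (0 : Site) ∈ At U (init ω) t then (t : ℝ≥0∞) else ∞ := by
    funext ω
    unfold T
    apply le_antisymm
    · apply le_iInf
      intro t
      by_cases ht : (0 : Site) ∈ At U (init ω) t
      · rw [if_pos ht]
        exact iInf₂_le t ht
      · rw [if_neg ht]
        exact le_top
    · refine le_iInf₂ ?_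
      intro t ht
      refine iInf_le_of_le t ?_
      rw [mem_ofPred_eq] at ht
      rw [if_pos ht]
  rw [heq]
  apply Measurable.iInf
  intro t
  exact Measurable.ite (hmeas t) measurable_const measurable_const

theorem result :
    (∀ U : Finset (Finset Site), Measurable (T U)) ∧
    (∀ U : Finset (Finset Site), 0 < pc U → pc U < 1 → ∀ p : unitInterval, (p : ℝ) = pc U →
      ∫⁻ ω, T U ω ∂law p = ∞) ∧
    (∀ U : Finset (Finset Site), Subcritical U → ∀ p : unitInterval, (p : ℝ) = pc U →
      law p (perc U) = 1 →
      (∫⁻ ω, T U ω ∂law p < ∞ ↔ stableSet U = circle) ∧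
      (stableSet U = circle → pc U = 1 ∧ ∀ᵐ ω ∂law p, T U ω = 0) ∧
      (stableSet U ≠ circle → 0 < pc U ∧ pc U < 1 ∧ ∃ c : ℝ, 0 < c ∧ ∀ t : ℕ, 1 ≤ t →
        c / t ≤ (law p).real {ω | (t : ℝ≥0∞) < T U ω})) := by
  refine ⟨measurable_T, ?_, ?_⟩
  · intro U h0 h1 p hp
    obtain ⟨r, hr1, hr⟩ := exists_range U
    have hN : NoFinite U := by
      by_contra hcon
      rw [pc_eq_one hcon] at h1
      exact lt_irrefl _ h1
    exact integral_infinite hr hr1 hN p hp h0
  · intro U hsub p hp hperc
    obtain ⟨r, hr1, hr⟩ := exists_range U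
    have hpos : 0 < pc U := by
      rw [← hp]
      rcases lt_or_eq_of_le p.2.1 with h | h
      · exact h
      · exfalso
        have hp0 : p = 0 := by
          apply Subtype.ext
          exact h.symm
        rw [hp0] at hperc
        exact perc_zero (empty_notMem hsub.nonempty) hperc
    have hcirc : stableSet U = circle → pc U = 1 ∧ ∀ᵐ ω ∂law p, T U ω = 0 := by
      intro h
      have h1 : pc U = 1 := pc_eq_one (not_noFinite h)
      refine ⟨h1, ?_⟩
      have hp1 : p = 1 := by
        apply Subtype.ext
        rw [hp, h1]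
        rfl
      rw [hp1, law_one, ae_dirac_iff]
      · exact T_zero _ rfl
      · exact (measurable_T U) (measurableSet_singleton 0)
    refine ⟨⟨?_, ?_⟩, hcirc, ?_⟩
    · intro h
      by_contra hcon
      rw [integral_infinite hr hr1 (noFinite_of_ne hcon) p hp hpos] at h
      exact lt_irrefl _ h
    · intro h
      rw [lintegral_congr_ae (hcirc h).2, lintegral_zero]
      exact ENNReal.zero_lt_top
    · intro h
      have hN := noFinite_of_ne h
      have hr0 : (0 : ℝ) < r := by exact_mod_cast hr1
      refine ⟨hpos, pc_lt_one hN, 1 / (256 * r ^ 2), by positivity, ?_⟩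
      intro t ht
      refine le_trans (tail hr hr1 hN p hp hpos ht) ?_
      exact measureReal_mono (hl_sub_T hr t) (measure_ne_top _ _)

end Pool.Agent.Results.MP_28b826_pr.InfiniteMeanAtCriticality
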